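import Pool.Agent.V7H38.TS.Spec
import Pool.Agent.Helper923.HMertens

set_option autoImplicit false

/-!
# Project TS (MP_61a569_nt): `∏_{p ∣ M, p > 10} p / (p - 4) ≤ C (log log X)^4` for `M ≤ X^6`
-/

namespace Pool.Agent.V7H54.TS

open Finset Filter

lemma card_pf_le {n : ℕ} (hn : 1 ≤ n) : (n.primeFactors.card : ℝ) * Real.log 2 ≤ Real.log n := by
  have h1 : 2 ^ n.primeFactors.card ≤ ∏ p ∈ n.primeFactors, p :=
    Finset.pow_card_le_prod _ _ _ (fun p hp => (Nat.prime_of_mem_primeFactors hp).two_le)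
  have h2 : 2 ^ n.primeFactors.card ≤ n :=
    h1.trans (Nat.le_of_dvd (by omega) (Nat.prod_primeFactors_dvd n))
  have h3 : ((2 : ℝ) ^ n.primeFactors.card) ≤ n := by exact_mod_cast h2
  have h4 := Real.log_le_log (by positivity) h3
  rwa [Real.log_pow] at h4

/-- `∑_{p ∣ n} 1 / p ≤ C + log log y` once `log n ≤ 4 y` -/
lemma sum_inv_le : ∃ C : ℝ, 0 ≤ C ∧ ∀ y n : ℕ, 3 ≤ y → 1 ≤ n → Real.log n ≤ 4 * y →
    ∑ p ∈ n.primeFactors, 1 / (p : ℝ) ≤ C + Real.log (Real.log y) := by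
  obtain ⟨C, hC0, hC⟩ := Pool.Agent.Helper923.HMertens.mertens_ratio
  have hl2 : (0 : ℝ) < Real.log 2 := Real.log_pos (by norm_num)
  have hl2' := Real.log_two_gt_d9
  have hl2'' := Real.log_two_lt_d9
  have hll : Real.log (Real.log 2) < 0 := Real.log_neg hl2 (by linarith)
  refine ⟨1 / 2 + C / Real.log 2 + 6 - Real.log (Real.log 2), ?_, ?_⟩
  · have : 0 ≤ C / Real.log 2 := by positivity
    linarith
  intro y n hy hn hlog
  have hy0 : (0 : ℝ) < y := by exact_mod_cast (by omega : 0 < y)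
  have h2 : ∑ p ∈ n.primeFactors, 1 / (p : ℝ) ≤
      ∑ p ∈ (Finset.Icc 1 y).filter Nat.Prime, 1 / (p : ℝ) +
        ∑ p ∈ n.primeFactors, 1 / (y : ℝ) := by
    have e1 : ∑ p ∈ n.primeFactors, 1 / (p : ℝ) =
        ∑ p ∈ n.primeFactors.filter (· ≤ y), 1 / (p : ℝ) +
        ∑ p ∈ n.primeFactors.filter (¬ · ≤ y), 1 / (p : ℝ) :=
      (Finset.sum_filter_add_sum_filter_not _ _ _).symm
    rw [e1]
    refine add_le_add ?_ ?_
    · refine Finset.sum_le_sum_of_subset_of_nonneg ?_ (fun i _ _ => by positivity)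
      intro p hp
      rw [Finset.mem_filter] at hp
      rw [Finset.mem_filter, Finset.mem_Icc]
      have := Nat.prime_of_mem_primeFactors hp.1
      exact ⟨⟨this.one_lt.le, hp.2⟩, this⟩
    · refine (Finset.sum_le_sum (g := fun _ => 1 / (y : ℝ)) ?_).trans
        (Finset.sum_le_sum_of_subset_of_nonneg (Finset.filter_subset _ _)
          (fun i _ _ => by positivity))
      intro p hp
      rw [Finset.mem_filter] at hp
      have h3 : (y : ℝ) ≤ p := by exact_mod_cast (by omega : y ≤ p)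
      exact one_div_le_one_div_of_le hy0 h3
  have h3 : ∑ p ∈ n.primeFactors, 1 / (y : ℝ) ≤ 6 := by
    rw [Finset.sum_const, nsmul_eq_mul]
    have := card_pf_le hn
    rw [mul_one_div, div_le_iff₀ hy0]
    have h4 : (n.primeFactors.card : ℝ) * Real.log 2 ≤ 4 * y := this.trans hlog
    nlinarith
  have h4 : ∑ p ∈ (Finset.Icc 1 y).filter Nat.Prime, 1 / (p : ℝ) ≤
      1 / 2 + (Real.log (Real.log y / Real.log 2) + C / Real.log 2) := by
    have h5 := hC 2 y le_rfl (by omega)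
    have h6 := (abs_le.1 h5).2
    have h7 : (Finset.Icc 1 y).filter Nat.Prime = insert 2 ((Finset.Ioc 2 y).filter Nat.Prime) := by
      ext p
      rw [Finset.mem_insert, Finset.mem_filter, Finset.mem_filter, Finset.mem_Icc, Finset.mem_Ioc]
      constructor
      · rintro ⟨⟨h8, h9⟩, h10⟩
        have := h10.two_le
        rcases Nat.eq_or_lt_of_le this with h11 | h11
        · exact Or.inl h11.symm
        · exact Or.inr ⟨⟨h11, h9⟩, h10⟩
      · rintro (rfl | ⟨⟨h8, h9⟩, h10⟩)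
        · exact ⟨⟨by omega, by omega⟩, Nat.prime_two⟩
        · exact ⟨⟨by omega, h9⟩, h10⟩
    rw [h7, Finset.sum_insert (by simp)]
    have h12 : (((2 : ℕ) : ℝ)) = 2 := by norm_num
    rw [h12] at h6 ⊢
    linarith
  have hly : 0 < Real.log y := Real.log_pos (by exact_mod_cast (by omega : 1 < y))
  rw [Real.log_div hly.ne' hl2.ne'] at h4
  linarith

/-- `p / (p - 4) ≤ exp (4 / p + 26 / p²)` -/
lemma factor_le {p : ℕ} (hp : 10 < p) :
    (p : ℝ) / ((p : ℝ) - 4) ≤ Real.exp (4 * (1 / (p : ℝ)) + 26 * ((p : ℝ) ^ 2)⁻¹) := by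
  have h1 : (11 : ℝ) ≤ p := by exact_mod_cast (by omega : 11 ≤ p)
  have h2 : (p : ℝ) / ((p : ℝ) - 4) ≤ 4 * (1 / (p : ℝ)) + 26 * ((p : ℝ) ^ 2)⁻¹ + 1 := by
    have h3 : (0 : ℝ) < (p : ℝ) - 4 := by linarith
    have h4 : (0 : ℝ) < p := by linarith
    have e : 4 * (1 / (p : ℝ)) + 26 * ((p : ℝ) ^ 2)⁻¹ + 1 =
        ((p : ℝ) ^ 2 + 4 * p + 26) / (p : ℝ) ^ 2 := by
      field_simp
      ring
    rw [e, div_le_div_iff₀ h3 (by positivity)]
    nlinarith
  exact h2.trans (Real.add_one_le_exp _)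

/-- the sum of `1 / p²` over a set of `p > 10` is at most `1 / 10` -/
lemma sum_sq_le (S : Finset ℕ) (hS : ∀ p ∈ S, 10 < p) :
    ∑ p ∈ S, ((p : ℝ) ^ 2)⁻¹ ≤ 1 / 10 := by
  have h1 : S ⊆ Ioc 10 (max 10 (S.sup id)) := by
    intro p hp
    rw [mem_Ioc]
    exact ⟨hS p hp, le_max_of_le_right (Finset.le_sup (f := id) hp)⟩
  refine (Finset.sum_le_sum_of_subset_of_nonneg h1 (fun i _ _ => by positivity)).trans ?_
  have h5 : ∑ i ∈ Ioc 10 (max 10 (S.sup id)), (((i : ℝ)) ^ 2)⁻¹ ≤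
      ((10 : ℕ) : ℝ)⁻¹ - ((max 10 (S.sup id) : ℕ) : ℝ)⁻¹ :=
    sum_Ioc_inv_sq_le_sub (by norm_num) (le_max_left _ _)
  have h6 : (0 : ℝ) ≤ ((max 10 (S.sup id) : ℕ) : ℝ)⁻¹ := by positivity
  have h7 : ((10 : ℕ) : ℝ)⁻¹ = 1 / 10 := by norm_num
  linarith

/-- PROD -/
theorem t_PROD : Pool.Agent.V7H38.TS.S_PROD := by
  obtain ⟨C, hC0, hC⟩ := sum_inv_le
  refine ⟨Real.exp (4 * C + 3) * 2 ^ 4, by positivity, ?_⟩
  -- large `X`
  have hev : ∀ᶠ X : ℕ in atTop, 3 ≤ Real.log X := by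
    have := Real.tendsto_log_atTop.comp (tendsto_natCast_atTop_atTop (R := ℝ))
    exact this.eventually_ge_atTop 3
  obtain ⟨X₀, hX₀⟩ := eventually_atTop.1 hev
  refine ⟨max 1 X₀, fun X hX M hM hMX => ?_⟩
  have hL : 3 ≤ Real.log X := hX₀ X ((le_max_right _ _).trans hX)
  have hX1 : 1 ≤ X := (le_max_left _ _).trans hX
  have hX0 : (0 : ℝ) < X := by exact_mod_cast hX1
  -- `y = ⌈2 log X⌉`
  set y : ℕ := ⌈2 * Real.log X⌉₊ with hy
  have hy1 : 2 * Real.log X ≤ y := Nat.le_ceil _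
  have hy2 : (y : ℝ) < 2 * Real.log X + 1 := Nat.ceil_lt_add_one (by linarith)
  have hy3 : 3 ≤ y := by
    have : (3 : ℝ) ≤ y := by linarith
    exact_mod_cast this
  have hM1 : 1 ≤ M := by omega
  have hlogM : Real.log M ≤ 4 * y := by
    have h1 : (M : ℝ) ≤ (X : ℝ) ^ 6 := by exact_mod_cast hMX
    have h2 : Real.log M ≤ Real.log ((X : ℝ) ^ 6) :=
      Real.log_le_log (by exact_mod_cast hM1) h1
    rw [Real.log_pow] at h2
    push_cast at h2
    linarith
  have hS := hC y M hy3 hM1 hlogM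
  -- `log y ≤ 2 log log X`
  have hLL : 0 < Real.log (Real.log X) := Real.log_pos (by linarith)
  have hly0 : 0 < Real.log y := Real.log_pos (by
    have : (3 : ℝ) ≤ y := by exact_mod_cast hy3
    linarith)
  have hly : Real.log y ≤ 2 * Real.log (Real.log X) := by
    have h1 : (y : ℝ) ≤ (Real.log X) ^ 2 := by nlinarith
    have h2 : Real.log y ≤ Real.log ((Real.log X) ^ 2) :=
      Real.log_le_log (by linarith) h1
    rw [Real.log_pow] at h2
    push_cast at h2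
    exact h2
  -- the product
  have hprod : ∏ p ∈ M.primeFactors.filter (fun p => 10 < p), (p : ℝ) / ((p : ℝ) - 4) ≤
      Real.exp (∑ p ∈ M.primeFactors.filter (fun p => 10 < p),
        (4 * (1 / (p : ℝ)) + 26 * ((p : ℝ) ^ 2)⁻¹)) := by
    rw [Real.exp_sum]
    refine Finset.prod_le_prod (fun p hp => ?_) (fun p hp => factor_le (mem_filter.1 hp).2)
    have h1 : (11 : ℝ) ≤ p := by exact_mod_cast (by have := (mem_filter.1 hp).2; omega : 11 ≤ p)
    exact div_nonneg (by linarith) (by linarith)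
  refine hprod.trans ?_
  have hsum : ∑ p ∈ M.primeFactors.filter (fun p => 10 < p),
      (4 * (1 / (p : ℝ)) + 26 * ((p : ℝ) ^ 2)⁻¹) ≤ 4 * C + 3 + 4 * Real.log (Real.log y) := by
    rw [Finset.sum_add_distrib, ← Finset.mul_sum, ← Finset.mul_sum]
    have h1 : ∑ p ∈ M.primeFactors.filter (fun p => 10 < p), 1 / (p : ℝ) ≤
        ∑ p ∈ M.primeFactors, 1 / (p : ℝ) :=
      Finset.sum_le_sum_of_subset_of_nonneg (Finset.filter_subset _ _)
        (fun i _ _ => by positivity)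
    have h2 := sum_sq_le (M.primeFactors.filter (fun p => 10 < p))
      (fun p hp => (mem_filter.1 hp).2)
    linarith
  refine (Real.exp_le_exp.2 hsum).trans ?_
  rw [Real.exp_add]
  have he : Real.exp (4 * Real.log (Real.log y)) = (Real.log y) ^ 4 := by
    rw [mul_comm, Real.exp_mul, Real.exp_log hly0]
    norm_cast
  rw [he, mul_assoc, ← mul_pow]
  exact mul_le_mul_of_nonneg_left (pow_le_pow_left₀ hly0.le hly 4) (Real.exp_pos _).le

end Pool.Agent.V7H54.TS
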